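import Mathlib
import Pool.Agent.Lib.MP_88e1a1_al.Even.Final

/-!
# The word `[[a,b],[a²,b²]]` on `SU(n)`

Companion of the frozen statement in the words of the problem: the word is an element of the free
group of rank two, it is non-trivial and lies in the second derived subgroup, and its word map on
the group `SU(n)` is surjective for EVERY `n`, with either convention for the commutator.
-/

set_option autoImplicit false

namespace Pool.Agent.Results.MP_88e1a1_al.WordMapSurjective

open Matrix

/-- The free group of rank two. -/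
abbrev F2 : Type := FreeGroup (Fin 2)

/-- The commutator `[x,y] = x y x⁻¹ y⁻¹`. -/
def comm {G : Type} [Group G] (x y : G) : G := x * y * x⁻¹ * y⁻¹

/-- The word `ω(a,b) = [[a,b],[a²,b²]]`, where `[x,y] = x y x⁻¹ y⁻¹`. -/
def omega : F2 :=
  comm (comm (FreeGroup.of 0) (FreeGroup.of 1))
    (comm (FreeGroup.of 0 ^ 2) (FreeGroup.of 1 ^ 2))

/-- The commutator in the other convention, `x⁻¹ y⁻¹ x y`. -/
def comm' {G : Type} [Group G] (x y : G) : G := x⁻¹ * y⁻¹ * x * y

/-- The word `[[a,b],[a²,b²]]` in the other convention for the commutator. -/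
def omega' : F2 :=
  comm' (comm' (FreeGroup.of 0) (FreeGroup.of 1))
    (comm' (FreeGroup.of 0 ^ 2) (FreeGroup.of 1 ^ 2))

/-- The word map of a word `w` on a group `G`: substitute `g` for `a` and `h` for `b`. -/
def wordMap (G : Type) [Group G] (w : F2) (p : G × G) : G :=
  FreeGroup.lift ![p.1, p.2] w

/-- The group `SU(n)` of complex unitary `n × n` matrices with determinant `1`. -/
abbrev SU (n : ℕ) : Type := Matrix.specialUnitaryGroup (Fin n) ℂ

private theorem wordMap_omega {G : Type} [Group G] (g h : G) :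
    wordMap G omega (g, h) = comm (comm g h) (comm (g ^ 2) (h ^ 2)) := by
  simp [wordMap, omega, comm]

private theorem wordMap_omega' {G : Type} [Group G] (g h : G) :
    wordMap G omega' (g, h) = comm' (comm' g h) (comm' (g ^ 2) (h ^ 2)) := by
  simp [wordMap, omega', comm']

private theorem surj_omega (n : ℕ) : Function.Surjective (wordMap (SU n) omega) := by
  intro z
  rcases Nat.eq_zero_or_pos n with rfl | hn
  · refine ⟨(1, 1), ?_⟩
    apply Subtype.ext
    ext i j
    exact i.elim0
  · obtain ⟨x, y, hx, hy, h⟩ :=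
      Pool.Agent.Lib.MP_88e1a1_al.Even.result_all n hn z.1 z.2
    refine ⟨(⟨x, hx⟩, ⟨y, hy⟩), ?_⟩
    rw [wordMap_omega]
    apply Subtype.ext
    rw [← h]
    rfl

private theorem surj_omega' (n : ℕ) : Function.Surjective (wordMap (SU n) omega') := by
  intro z
  obtain ⟨⟨x, y⟩, h⟩ := surj_omega n z
  rw [wordMap_omega] at h
  -- conjugate by `c = B A`, with `A = [x,y]`, `B = [x²,y²]`
  refine ⟨((comm (x ^ 2) (y ^ 2) * comm x y * x * (comm (x ^ 2) (y ^ 2) * comm x y)⁻¹)⁻¹,
    (comm (x ^ 2) (y ^ 2) * comm x y * y * (comm (x ^ 2) (y ^ 2) * comm x y)⁻¹)⁻¹), ?_⟩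
  rw [wordMap_omega', ← h]
  generalize hc : comm (x ^ 2) (y ^ 2) * comm x y = c
  have e1 : comm' (c * x * c⁻¹)⁻¹ (c * y * c⁻¹)⁻¹ = c * comm x y * c⁻¹ := by
    simp only [comm', comm]
    group
  have e2 : comm' (((c * x * c⁻¹)⁻¹) ^ 2) (((c * y * c⁻¹)⁻¹) ^ 2) = c * comm (x ^ 2) (y ^ 2) * c⁻¹ := by
    simp only [comm', comm, inv_pow, conj_pow]
    group
  rw [e1, e2]
  have e3 : comm' (c * comm x y * c⁻¹) (c * comm (x ^ 2) (y ^ 2) * c⁻¹)
      = c * (comm (x ^ 2) (y ^ 2) * comm x y)⁻¹ * comm (comm x y) (comm (x ^ 2) (y ^ 2)) *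
        (comm (x ^ 2) (y ^ 2) * comm x y) * c⁻¹ := by
    generalize comm x y = A
    generalize comm (x ^ 2) (y ^ 2) = B
    simp only [comm', comm]
    group
  rw [e3, hc]
  group

private theorem omega_ne_one : omega ≠ 1 := by
  intro h0
  have h := surj_omega 2
  -- a non-trivial element of `SU(2)`
  have hz : (-1 : Matrix (Fin 2) (Fin 2) ℂ) ∈ Matrix.specialUnitaryGroup (Fin 2) ℂ := by
    rw [mem_specialUnitaryGroup_iff]
    refine ⟨?_, ?_⟩
    · rw [mem_unitaryGroup_iff]
      simp
    · simp [det_neg]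
  obtain ⟨p, hp⟩ := h ⟨-1, hz⟩
  rw [h0] at hp
  have h1 : wordMap (SU 2) 1 p = 1 := map_one _
  rw [h1] at hp
  have h2 := congrArg (fun m : SU 2 => m.1 0 0) hp
  simp at h2
  have h3 : (1 : ℝ) = -1 := by exact_mod_cast congrArg Complex.re h2
  norm_num at h3

private theorem omega_mem : omega ∈ derivedSeries F2 2 := by
  have h : ∀ x y : F2, comm x y ∈ derivedSeries F2 1 := fun x y => by
    rw [derivedSeries_one]
    exact Subgroup.commutator_mem_commutator (Subgroup.mem_top x) (Subgroup.mem_top y)
  rw [derivedSeries_succ]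
  exact Subgroup.commutator_mem_commutator (h _ _) (h _ _)

/-- The word `ω = [[a,b],[a²,b²]]` is a non-trivial element of the second derived subgroup of the
free group of rank two, and for EVERY `n` its word map `SU(n) × SU(n) → SU(n)` is surjective; the
same holds for the word written with the other convention for the commutator. -/
theorem result :
    omega ≠ 1 ∧ omega ∈ derivedSeries F2 2 ∧
      ∀ n : ℕ, Function.Surjective (wordMap (SU n) omega) ∧
        Function.Surjective (wordMap (SU n) omega') :=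
  ⟨omega_ne_one, omega_mem, fun n => ⟨surj_omega n, surj_omega' n⟩⟩

end Pool.Agent.Results.MP_88e1a1_al.WordMapSurjective
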